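import Mathlib
import Pool.Agent.H15TM.Glue

/-!
# A complex Hilbert manifold structure on Teichmüller space whose components are the right translates
of the WP-class Teichmüller spaces
-/

set_option autoImplicit false

namespace Pool.Agent.Results.MP_217185_an.RightTranslates

open Set Filter Topology
open scoped Manifold ContDiff

universe u v

/-- The bordered Riemann surfaces of type `(g, n)` with their quasiconformal maps (a map is a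
quasiconformal homeomorphism of the first surface onto the second one), the biholomorphic maps, the
relation of homotopy rel boundary and the maps whose Beltrami differential lies in `L²_hyp`. -/
structure Surfaces where
  /-- the surfaces -/
  S : Type u
  /-- the quasiconformal maps -/
  Map : S → S → Type u
  /-- the identity maps -/
  id : (X : S) → Map X X
  /-- composition, `comp g f` is `g ∘ f` -/
  comp : {X Y Z : S} → Map Y Z → Map X Y → Map X Z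
  /-- the inverse map -/
  inv : {X Y : S} → Map X Y → Map Y X
  /-- biholomorphic maps -/
  Hol : {X Y : S} → Map X Y → Prop
  /-- homotopic rel boundary -/
  Htpy : {X Y : S} → Map X Y → Map X Y → Prop
  /-- the Beltrami differential of the map is in `L²_hyp` -/
  L2 : {X Y : S} → Map X Y → Prop
  comp_assoc : ∀ {X Y Z W : S} (h : Map Z W) (g : Map Y Z) (f : Map X Y),
    comp (comp h g) f = comp h (comp g f)
  id_comp : ∀ {X Y : S} (f : Map X Y), comp (id Y) f = f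
  comp_id : ∀ {X Y : S} (f : Map X Y), comp f (id X) = f
  inv_comp : ∀ {X Y : S} (f : Map X Y), comp (inv f) f = id X
  comp_inv : ∀ {X Y : S} (f : Map X Y), comp f (inv f) = id Y
  hol_id : ∀ X : S, Hol (id X)
  hol_comp : ∀ {X Y Z : S} (g : Map Y Z) (f : Map X Y), Hol g → Hol f → Hol (comp g f)
  hol_inv : ∀ {X Y : S} (f : Map X Y), Hol f → Hol (inv f)
  htpy_refl : ∀ {X Y : S} (f : Map X Y), Htpy f f
  htpy_symm : ∀ {X Y : S} (f g : Map X Y), Htpy f g → Htpy g f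
  htpy_trans : ∀ {X Y : S} (f g h : Map X Y), Htpy f g → Htpy g h → Htpy f h
  htpy_comp : ∀ {X Y Z : S} (g g' : Map Y Z) (f f' : Map X Y), Htpy g g' → Htpy f f' →
    Htpy (comp g f) (comp g' f')
  /-- the Beltrami differential of a biholomorphic map is zero -/
  l2_of_hol : ∀ {X Y : S} (f : Map X Y), Hol f → L2 f

namespace Surfaces

variable (𝒮 : Surfaces.{u})

/-- The equivalence of the triples `(X, f₁, Y₁)` and `(X, f₂, Y₂)` in the definition of the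
Teichmüller space: `f₂⁻¹ ∘ σ ∘ f₁` is homotopic to the identity rel boundary for some biholomorphic
`σ : Y₁ → Y₂`. -/
def Rel (X : 𝒮.S) (a b : Σ Y, 𝒮.Map X Y) : Prop :=
  ∃ σ : 𝒮.Map a.1 b.1, 𝒮.Hol σ ∧ 𝒮.Htpy (𝒮.comp (𝒮.inv b.2) (𝒮.comp σ a.2)) (𝒮.id X)

/-- the Teichmüller space `T(X)` -/
def T (X : 𝒮.S) : Type u := Quot (𝒮.Rel X)

/-- the class of the triple `(X, f, Y)` -/
def cls {X Y : 𝒮.S} (f : 𝒮.Map X Y) : 𝒮.T X := Quot.mk _ ⟨Y, f⟩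

/-- the WP-class Teichmüller space `T_WP(X)`: the classes with a representative whose Beltrami
differential lies in `L²_hyp` -/
def WP (X : 𝒮.S) : Set (𝒮.T X) := {τ | ∃ (Y : 𝒮.S) (f : 𝒮.Map X Y), 𝒮.L2 f ∧ 𝒮.cls f = τ}

variable {𝒮}

lemma comp_inv_cancel {X Y Z : 𝒮.S} (g : 𝒮.Map Z Y) (f : 𝒮.Map X Y) :
    𝒮.comp g (𝒮.comp (𝒮.inv g) f) = f := by
  rw [← 𝒮.comp_assoc, 𝒮.comp_inv, 𝒮.id_comp]

lemma inv_comp_cancel {X Y Z : 𝒮.S} (g : 𝒮.Map Y Z) (f : 𝒮.Map X Y) :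
    𝒮.comp (𝒮.inv g) (𝒮.comp g f) = f := by
  rw [← 𝒮.comp_assoc, 𝒮.inv_comp, 𝒮.id_comp]

lemma rel_iff {X : 𝒮.S} (a b : Σ Y, 𝒮.Map X Y) :
    𝒮.Rel X a b ↔ ∃ σ : 𝒮.Map a.1 b.1, 𝒮.Hol σ ∧ 𝒮.Htpy (𝒮.comp σ a.2) b.2 := by
  constructor
  · rintro ⟨σ, h1, h2⟩
    refine ⟨σ, h1, ?_⟩
    have h3 := 𝒮.htpy_comp b.2 b.2 _ _ (𝒮.htpy_refl _) h2
    rw [comp_inv_cancel, 𝒮.comp_id] at h3
    exact h3
  · rintro ⟨σ, h1, h2⟩
    refine ⟨σ, h1, ?_⟩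
    have h3 := 𝒮.htpy_comp (𝒮.inv b.2) (𝒮.inv b.2) _ _ (𝒮.htpy_refl _) h2
    rw [𝒮.inv_comp] at h3
    exact h3

lemma rel_equiv (X : 𝒮.S) : Equivalence (𝒮.Rel X) := by
  refine ⟨fun a => ?_, fun {a b} h => ?_, fun {a b c} h k => ?_⟩
  · exact (rel_iff a a).2 ⟨𝒮.id _, 𝒮.hol_id _, by rw [𝒮.id_comp]; exact 𝒮.htpy_refl _⟩
  · obtain ⟨σ, h1, h2⟩ := (rel_iff a b).1 h
    refine (rel_iff b a).2 ⟨𝒮.inv σ, 𝒮.hol_inv _ h1, ?_⟩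
    have h3 := 𝒮.htpy_comp (𝒮.inv σ) (𝒮.inv σ) _ _ (𝒮.htpy_refl _) h2
    rw [inv_comp_cancel] at h3
    exact 𝒮.htpy_symm _ _ h3
  · obtain ⟨σ, h1, h2⟩ := (rel_iff a b).1 h
    obtain ⟨σ', h3, h4⟩ := (rel_iff b c).1 k
    refine (rel_iff a c).2 ⟨𝒮.comp σ' σ, 𝒮.hol_comp _ _ h3 h1, ?_⟩
    rw [𝒮.comp_assoc]
    exact 𝒮.htpy_trans _ _ _ (𝒮.htpy_comp σ' σ' _ _ (𝒮.htpy_refl _) h2) h4

lemma cls_eq {X Y Z : 𝒮.S} {f : 𝒮.Map X Y} {g : 𝒮.Map X Z} :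
    𝒮.cls f = 𝒮.cls g ↔ ∃ σ : 𝒮.Map Y Z, 𝒮.Hol σ ∧ 𝒮.Htpy (𝒮.comp σ f) g := by
  exact (Equivalence.quot_mk_eq_iff (rel_equiv X) _ _).trans (rel_iff _ _)

variable (𝒮)

/-- The right translation `R_h : T(Y) → T(X)`, `[Y, f, Z] ↦ [X, f ∘ h, Z]`, for a quasiconformal map
`h : X → Y`. -/
def R {X Y : 𝒮.S} (h : 𝒮.Map X Y) : 𝒮.T Y → 𝒮.T X :=
  Quot.lift (fun a => 𝒮.cls (𝒮.comp a.2 h)) fun a b hab => by
    obtain ⟨σ, h1, h2⟩ := (rel_iff a b).1 hab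
    refine cls_eq.2 ⟨σ, h1, ?_⟩
    rw [← 𝒮.comp_assoc]
    exact 𝒮.htpy_comp _ _ h h h2 (𝒮.htpy_refl _)

variable {𝒮}

lemma R_cls {X Y Z : 𝒮.S} (h : 𝒮.Map X Y) (f : 𝒮.Map Y Z) :
    𝒮.R h (𝒮.cls f) = 𝒮.cls (𝒮.comp f h) := rfl

lemma exists_cls {X : 𝒮.S} (τ : 𝒮.T X) : ∃ (Y : 𝒮.S) (f : 𝒮.Map X Y), τ = 𝒮.cls f := by
  obtain ⟨⟨Y, f⟩, rfl⟩ := Quot.exists_rep τ
  exact ⟨Y, f, rfl⟩

lemma R_comp {X Y Z : 𝒮.S} (h : 𝒮.Map X Y) (g : 𝒮.Map Y Z) (τ : 𝒮.T Z) :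
    𝒮.R h (𝒮.R g τ) = 𝒮.R (𝒮.comp g h) τ := by
  obtain ⟨W, f, rfl⟩ := exists_cls τ
  rw [R_cls, R_cls, R_cls, 𝒮.comp_assoc]

lemma R_id {X : 𝒮.S} (τ : 𝒮.T X) : 𝒮.R (𝒮.id X) τ = τ := by
  obtain ⟨W, f, rfl⟩ := exists_cls τ
  rw [R_cls, 𝒮.comp_id]

lemma R_htpy {X Y : 𝒮.S} {h k : 𝒮.Map X Y} (hk : 𝒮.Htpy h k) (τ : 𝒮.T Y) : 𝒮.R h τ = 𝒮.R k τ := by
  obtain ⟨W, f, rfl⟩ := exists_cls τ
  rw [R_cls, R_cls]
  exact cls_eq.2 ⟨𝒮.id _, 𝒮.hol_id _, by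
    rw [𝒮.id_comp]
    exact 𝒮.htpy_comp _ _ _ _ (𝒮.htpy_refl _) hk⟩

lemma R_inj {X Y : 𝒮.S} (h : 𝒮.Map X Y) : Function.Injective (𝒮.R h) := by
  intro a b hab
  have h1 := congrArg (𝒮.R (𝒮.inv h)) hab
  rwa [R_comp, R_comp, 𝒮.comp_inv, R_id, R_id] at h1

lemma base_mem (X : 𝒮.S) : 𝒮.cls (𝒮.id X) ∈ 𝒮.WP X := ⟨X, 𝒮.id X, 𝒮.l2_of_hol _ (𝒮.hol_id X), rfl⟩

end Surfaces

/-- `j` is a biholomorphism of the complex manifold `N` onto the open subset `U` of the complex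
manifold `M`: it is injective with image `U`, and locally it is a biholomorphism between open
subsets. -/
def Onto {E : Type v} [NormedAddCommGroup E] [NormedSpace ℂ E] {N M : Type u} [TopologicalSpace N]
    [ChartedSpace E N] [TopologicalSpace M] [ChartedSpace E M] (j : N → M) (U : Set M) : Prop :=
  Function.Injective j ∧ range j = U ∧ IsOpen U ∧ IsLocalDiffeomorph 𝓘(ℂ, E) 𝓘(ℂ, E) ω j

/-- Change of base point: if the Beltrami differential of `h : X → Y` lies in `L²_hyp`, then the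
right translation `R_h` is a biholomorphism of `T_WP(Y)` onto `T_WP(X)`. -/
def BaseChange (𝒮 : Surfaces.{u}) (E : Type v) [NormedAddCommGroup E] [NormedSpace ℂ E]
    [∀ X, TopologicalSpace (𝒮.WP X)] [∀ X, ChartedSpace E (𝒮.WP X)] : Prop :=
  ∀ (X Y : 𝒮.S) (h : 𝒮.Map X Y), 𝒮.L2 h →
    ∃ e : 𝒮.WP Y ≃ₘ^ω⟮𝓘(ℂ, E), 𝓘(ℂ, E)⟯ 𝒮.WP X, ∀ s, (e s : 𝒮.T X) = 𝒮.R h s

/-- The properties of the structure of a complex Hilbert manifold on `T(X)` asked for in the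
question: (a) the connected component of the identity is `T_WP(X)` with its standard structure;
(b) each connected component is a right translate `R_h (T_WP(Y))` for some quasiconformal map
`h : X → Y`, and `R_h` is a biholomorphism of `T_WP(Y)` onto it. -/
def IsGood (𝒮 : Surfaces.{u}) (E : Type v) [NormedAddCommGroup E] [NormedSpace ℂ E]
    [∀ X, TopologicalSpace (𝒮.WP X)] [∀ X, ChartedSpace E (𝒮.WP X)] (X : 𝒮.S)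
    [TopologicalSpace (𝒮.T X)] [ChartedSpace E (𝒮.T X)] : Prop :=
  T2Space (𝒮.T X) ∧ IsManifold 𝓘(ℂ, E) ω (𝒮.T X) ∧
  (connectedComponent (𝒮.cls (𝒮.id X)) = 𝒮.WP X ∧
    Onto (E := E) (Subtype.val : 𝒮.WP X → 𝒮.T X) (𝒮.WP X)) ∧
  ∀ τ : 𝒮.T X, ∃ (Y : 𝒮.S) (h : 𝒮.Map X Y), connectedComponent τ = 𝒮.R h '' 𝒮.WP Y ∧
    Onto (E := E) (fun s : 𝒮.WP Y => 𝒮.R h s) (𝒮.R h '' 𝒮.WP Y)

section proof

open Surfaces Pool.Agent.H15TM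

variable {𝒮 : Surfaces.{u}}

/-- representatives -/
noncomputable def rs {X : 𝒮.S} (τ : 𝒮.T X) : 𝒮.S := (exists_cls τ).choose

/-- representatives -/
noncomputable def rm {X : 𝒮.S} (τ : 𝒮.T X) : 𝒮.Map X (rs τ) := (exists_cls τ).choose_spec.choose

lemma rm_spec {X : 𝒮.S} (τ : 𝒮.T X) : τ = 𝒮.cls (rm τ) := (exists_cls τ).choose_spec.choose_spec

/-- the right translate through a point -/
def J {X Y : 𝒮.S} (h : 𝒮.Map X Y) (s : 𝒮.WP Y) : 𝒮.T X := 𝒮.R h s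

lemma J_inj {X Y : 𝒮.S} (h : 𝒮.Map X Y) : Function.Injective (J h) := fun _ _ hab =>
  Subtype.ext (R_inj h hab)

lemma J_base {X Y : 𝒮.S} (h : 𝒮.Map X Y) : J h ⟨_, base_mem Y⟩ = 𝒮.cls h := by
  show 𝒮.cls (𝒮.comp (𝒮.id Y) h) = 𝒮.cls h
  rw [𝒮.id_comp]

lemma range_eq {X Y Z : 𝒮.S} {h : 𝒮.Map X Y} {k : 𝒮.Map X Z} (e : 𝒮.WP Y ≃ 𝒮.WP Z)
    (he : ∀ s, 𝒮.R k (e s) = 𝒮.R h s) : range (J h) = range (J k) := by
  apply Subset.antisymm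
  · rintro _ ⟨s, rfl⟩
    exact ⟨e s, he s⟩
  · rintro _ ⟨t, rfl⟩
    refine ⟨e.symm t, ?_⟩
    have := he (e.symm t)
    rw [e.apply_symm_apply] at this
    exact this.symm

/-- the set of the right translates -/
def Cs (𝒮 : Surfaces.{u}) (X : 𝒮.S) : Type u := {U : Set (𝒮.T X) // ∃ τ : 𝒮.T X, range (J (rm τ)) = U}

/-- a point -/
noncomputable def pt {X : 𝒮.S} (c : Cs 𝒮 X) : 𝒮.T X := c.2.choose

lemma pt_spec {X : 𝒮.S} (c : Cs 𝒮 X) : range (J (rm (pt c))) = c.1 := c.2.choose_spec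

variable {E : Type v} [NormedAddCommGroup E] [NormedSpace ℂ E]
  [∀ X, TopologicalSpace (𝒮.WP X)] [∀ X, ChartedSpace E (𝒮.WP X)]

lemma coset (hb : BaseChange 𝒮 E) {X Y Z : 𝒮.S} (h : 𝒮.Map X Y) (k : 𝒮.Map X Z) (s0 : 𝒮.WP Y)
    (t0 : 𝒮.WP Z) (heq : 𝒮.R h s0 = 𝒮.R k t0) :
    ∃ e : 𝒮.WP Y ≃ₘ^ω⟮𝓘(ℂ, E), 𝓘(ℂ, E)⟯ 𝒮.WP Z, ∀ s, 𝒮.R k (e s) = 𝒮.R h s := by
  obtain ⟨_, A, a, ha, rfl⟩ := s0
  obtain ⟨_, B, b, hb', rfl⟩ := t0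
  obtain ⟨σ, hσ, hσ'⟩ := cls_eq.1 (show 𝒮.cls (𝒮.comp a h) = 𝒮.cls (𝒮.comp b k) from heq)
  obtain ⟨ea, hea⟩ := hb _ _ a ha
  obtain ⟨eb, heb⟩ := hb _ _ b hb'
  obtain ⟨es, hes⟩ := hb _ _ σ (𝒮.l2_of_hol σ hσ)
  refine ⟨(ea.symm.trans es.symm).trans eb, fun s => ?_⟩
  have h1 : (s : 𝒮.T Y) = 𝒮.R a (𝒮.R σ (es.symm (ea.symm s))) := by
    rw [← hes, es.apply_symm_apply, ← hea, ea.apply_symm_apply]
  show 𝒮.R k (eb (es.symm (ea.symm s)) : 𝒮.T Z) = 𝒮.R h s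
  rw [heb, h1, R_comp, R_comp, R_comp]
  exact (R_htpy hσ' _).symm

lemma bij (hb : BaseChange 𝒮 E) (X : 𝒮.S) :
    Function.Bijective (fun x : Σ c : Cs 𝒮 X, 𝒮.WP (rs (pt c)) => J (rm (pt x.1)) x.2) := by
  constructor
  · rintro ⟨c, s⟩ ⟨d, t⟩ h
    obtain ⟨e, he⟩ := coset hb (rm (pt c)) (rm (pt d)) s t h
    have h1 : c = d := Subtype.ext (by rw [← pt_spec c, ← pt_spec d]; exact range_eq e.toEquiv he)
    subst h1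
    exact congrArg (Sigma.mk c) (J_inj _ h)
  · intro m
    let c : Cs 𝒮 X := ⟨range (J (rm m)), m, rfl⟩
    have h1 : m ∈ c.1 := ⟨_, (J_base (rm m)).trans (rm_spec m).symm⟩
    rw [← pt_spec c] at h1
    obtain ⟨s, hs⟩ := h1
    exact ⟨⟨c, s⟩, hs⟩

lemma local_of {N M₁ M₂ : Type u} [TopologicalSpace N] [ChartedSpace E N] [TopologicalSpace M₁]
    [ChartedSpace E M₁] [TopologicalSpace M₂] [ChartedSpace E M₂] {j₁ : N → M₁} {j₂ : N → M₂}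
    {φ : M₁ → M₂} (h : ∀ x, φ (j₁ x) = j₂ x) {s : N}
    (h1 : IsLocalDiffeomorphAt 𝓘(ℂ, E) 𝓘(ℂ, E) ω j₁ s)
    (h2 : IsLocalDiffeomorphAt 𝓘(ℂ, E) 𝓘(ℂ, E) ω j₂ s) :
    IsLocalDiffeomorphAt 𝓘(ℂ, E) 𝓘(ℂ, E) ω φ (j₁ s) := by
  obtain ⟨Φ₁, hs1, e1⟩ := h1
  obtain ⟨Φ₂, hs2, e2⟩ := h2
  have hinv : Φ₁.symm (j₁ s) = s := by
    rw [e1 hs1]
    exact Φ₁.left_inv hs1
  refine ⟨Φ₁.symm.trans Φ₂, ⟨?_, ?_⟩, fun m hm => ?_⟩
  · rw [e1 hs1]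
    exact Φ₁.map_source hs1
  · show Φ₁.symm (j₁ s) ∈ Φ₂.source
    rw [hinv]
    exact hs2
  · have hm1 : m ∈ Φ₁.target := hm.1
    have hm2 : Φ₁.symm m ∈ Φ₂.source := hm.2
    have hm3 : Φ₁.symm m ∈ Φ₁.source := Φ₁.map_target hm1
    have hm4 : j₁ (Φ₁.symm m) = m := by
      rw [e1 hm3]
      exact Φ₁.right_inv hm1
    show φ m = Φ₂ (Φ₁.symm m)
    rw [← e2 hm2, ← h, hm4]

lemma unique (hb : BaseChange 𝒮 E) (X : 𝒮.S)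
    (t₁ : TopologicalSpace (𝒮.T X)) (c₁ : ChartedSpace E (𝒮.T X)) (h₁ : IsGood 𝒮 E X)
    (t₂ : TopologicalSpace (𝒮.T X)) (c₂ : ChartedSpace E (𝒮.T X)) (h₂ : IsGood 𝒮 E X) :
    @IsLocalDiffeomorph ℂ _ E _ _ E _ _ E _ E _ 𝓘(ℂ, E) 𝓘(ℂ, E) (𝒮.T X) t₁ c₁ (𝒮.T X) t₂ c₂ ω
      (fun τ => τ) := by
  intro τ
  obtain ⟨Y₁, k₁, hc₁, -, -, -, hl₁⟩ := h₁.2.2.2 τ
  obtain ⟨Y₂, k₂, hc₂, -, -, -, hl₂⟩ := h₂.2.2.2 τ
  have hm₁ : τ ∈ 𝒮.R k₁ '' 𝒮.WP Y₁ := hc₁ ▸ @mem_connectedComponent _ t₁ τ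
  have hm₂ : τ ∈ 𝒮.R k₂ '' 𝒮.WP Y₂ := hc₂ ▸ @mem_connectedComponent _ t₂ τ
  obtain ⟨s₁, hs₁, e₁⟩ := hm₁
  obtain ⟨s₂, hs₂, e₂⟩ := hm₂
  obtain ⟨e, he⟩ := coset hb k₁ k₂ ⟨s₁, hs₁⟩ ⟨s₂, hs₂⟩ (e₁.trans e₂.symm)
  have h2 : @IsLocalDiffeomorphAt ℂ _ E _ _ E _ _ E _ E _ 𝓘(ℂ, E) 𝓘(ℂ, E) (𝒮.WP Y₁) _ _ (𝒮.T X)
      t₂ c₂ ω (fun s : 𝒮.WP Y₁ => 𝒮.R k₁ s) ⟨s₁, hs₁⟩ := by
    have h3 : (fun s : 𝒮.WP Y₁ => 𝒮.R k₁ s) = (fun s : 𝒮.WP Y₂ => 𝒮.R k₂ s) ∘ e := by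
      funext s
      exact (he s).symm
    rw [h3]
    exact @IsLocalDiffeomorphAt.comp ℂ _ E _ _ E _ _ E _ _ E _ E _ E _ 𝓘(ℂ, E) 𝓘(ℂ, E) 𝓘(ℂ, E)
      (𝒮.WP Y₁) _ _ (𝒮.WP Y₂) _ _ (𝒮.T X) t₂ c₂ ω e _ (e.isLocalDiffeomorph _) _ (hl₂ _)
  have h4 := @local_of E _ _ (𝒮.WP Y₁) (𝒮.T X) (𝒮.T X) _ _ t₁ c₁ t₂ c₂
    (fun s : 𝒮.WP Y₁ => 𝒮.R k₁ s) (fun s : 𝒮.WP Y₁ => 𝒮.R k₁ s) (fun τ => τ) (fun _ => rfl)
    ⟨s₁, hs₁⟩ (hl₁ _) h2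
  have h5 : 𝒮.R k₁ ((⟨s₁, hs₁⟩ : 𝒮.WP Y₁) : 𝒮.T Y₁) = τ := e₁
  rw [← h5]
  exact h4

end proof

/-- **Theorem** (positive answer). Let the WP-class Teichmüller spaces `T_WP(X)` of the bordered
surfaces `X` carry their standard structures: connected complex Hilbert manifolds, modelled on `E`,
such that change of base point is biholomorphic. Then each Teichmüller space `T(X)` has a structure
of a complex Hilbert manifold with the properties (a) and (b) of the question; moreover, for every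
quasiconformal map `h : X → Y` the connected component of the point `[X, h, Y]` is the right
translate `R_h (T_WP(Y))` and `R_h` is a biholomorphism of `T_WP(Y)` onto it. The structure is
unique: for any two structures on `T(X)` with the properties (a) and (b) the identity map is a
biholomorphism from the first one to the second one. -/
theorem result (𝒮 : Surfaces.{u}) {E : Type v} [NormedAddCommGroup E] [InnerProductSpace ℂ E]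
    [CompleteSpace E] [∀ X, TopologicalSpace (𝒮.WP X)] [∀ X, ChartedSpace E (𝒮.WP X)]
    [∀ X, IsManifold 𝓘(ℂ, E) ω (𝒮.WP X)] [∀ X, T2Space (𝒮.WP X)] [∀ X, ConnectedSpace (𝒮.WP X)]
    (hb : BaseChange 𝒮 E) (X : 𝒮.S) :
    (∃ (_ : TopologicalSpace (𝒮.T X)) (_ : ChartedSpace E (𝒮.T X)), IsGood 𝒮 E X ∧
      ∀ (Y : 𝒮.S) (h : 𝒮.Map X Y), connectedComponent (𝒮.cls h) = 𝒮.R h '' 𝒮.WP Y ∧
        Onto (E := E) (fun s : 𝒮.WP Y => 𝒮.R h s) (𝒮.R h '' 𝒮.WP Y)) ∧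
    ∀ (t₁ : TopologicalSpace (𝒮.T X)) (c₁ : ChartedSpace E (𝒮.T X)) (_ : IsGood 𝒮 E X)
      (t₂ : TopologicalSpace (𝒮.T X)) (c₂ : ChartedSpace E (𝒮.T X)) (_ : IsGood 𝒮 E X),
      @IsLocalDiffeomorph ℂ _ E _ _ E _ _ E _ E _ 𝓘(ℂ, E) 𝓘(ℂ, E) (𝒮.T X) t₁ c₁ (𝒮.T X) t₂ c₂ ω
        (fun τ => τ) := by
  classical
  refine ⟨?_, unique hb X⟩
  let Φ := Equiv.ofBijective _ (bij hb X)
  let _ : TopologicalSpace (𝒮.T X) := Pool.Agent.H15TM.gTop Φ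
  let _ : ChartedSpace E (𝒮.T X) := Pool.Agent.H15TM.gCh Φ
  have key : ∀ (Y : 𝒮.S) (h : 𝒮.Map X Y), connectedComponent (𝒮.cls h) = 𝒮.R h '' 𝒮.WP Y ∧
      Onto (E := E) (fun s : 𝒮.WP Y => 𝒮.R h s) (𝒮.R h '' 𝒮.WP Y) := by
    intro Y h
    obtain ⟨⟨c, s0⟩, hs0⟩ := Φ.surjective (𝒮.cls h)
    have h0 : 𝒮.R h (⟨_, Surfaces.base_mem Y⟩ : 𝒮.WP Y) = 𝒮.R (rm (pt c)) s0 :=
      (J_base h).trans hs0.symm
    obtain ⟨e, he⟩ := coset hb h (rm (pt c)) ⟨_, Surfaces.base_mem Y⟩ s0 h0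
    have h1 : (fun s : 𝒮.WP Y => 𝒮.R h s) = Pool.Agent.H15TM.pc Φ c ∘ e := by
      funext s
      exact (he s).symm
    have h2 : 𝒮.R h '' 𝒮.WP Y = range (Pool.Agent.H15TM.pc Φ c) := by
      rw [image_eq_range]
      exact range_eq e.toEquiv he
    refine ⟨?_, ?_, ?_, ?_, ?_⟩
    · rw [h2, ← Pool.Agent.H15TM.gConn Φ c s0]
      exact congrArg _ hs0.symm
    · exact J_inj h
    · exact (image_eq_range _ _).symm
    · rw [h2]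
      exact (Pool.Agent.H15TM.gEmb Φ c).isOpen_range
    · rw [h1]
      intro s
      exact IsLocalDiffeomorphAt.comp (K := 𝓘(ℂ, E)) (P := 𝒮.T X) (e.isLocalDiffeomorph s)
        (Pool.Agent.H15TM.gLoc Φ c (e s))
  refine ⟨inferInstance, inferInstance, ⟨Pool.Agent.H15TM.gT2 Φ, Pool.Agent.H15TM.gMan Φ, ?_,
    fun τ => ?_⟩, key⟩
  · have hk := key X (𝒮.id X)
    have h1 : (fun s : 𝒮.WP X => 𝒮.R (𝒮.id X) s) = Subtype.val := by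
      funext s
      exact Surfaces.R_id _
    have h2 : 𝒮.R (𝒮.id X) '' 𝒮.WP X = 𝒮.WP X := by
      rw [image_eq_range, h1, Subtype.range_val]
    rw [h1, h2] at hk
    exact hk
  · obtain ⟨Y, h, rfl⟩ := Surfaces.exists_cls τ
    exact ⟨Y, h, key Y h⟩

end Pool.Agent.Results.MP_217185_an.RightTranslates
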